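import Pool.Agent.H98.CE.Targets
import Pool.Agent.H55.CG.Targets

/-!
# CHF: the final chain
-/

set_option autoImplicit false

open MeasureTheory ProbabilityTheory Filter Topology
open Pool.Agent.H95 Pool.Agent.H95.Cop Pool.Agent.H98.CE
open Pool.Agent.H55.CG (pz VV Mo)

namespace Pool.Agent.H62.CEL

/-- the lists of `r + 1` boxes beginning below `A` -/
def LL (G r A : ℕ) : Finset (List ℕ) := (Finset.range A).biUnion fun i => gl G r i

/-- the functional of the chains of `r + 1` high boxes -/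
noncomputable def Fc (α κ : ℝ) (n ℓ thr M G r A : ℕ) (w : (ℕ → ℝ) → ℝ) (lab : (ℕ → ℝ) → ℕ)
    (x : ℕ → ℝ) : ℝ :=
  if hb n ℓ thr M lab x ∈ LL G r A then
    cw (fun i => w (shift (i * (n * ℓ)) x)) (fun g => lk α κ (g * n)) (hb n ℓ thr M lab x)
  else 0

lemma LL_disj (hGLF : T_GLF) (G r A : ℕ) :
    ((Finset.range A : Finset ℕ) : Set ℕ).PairwiseDisjoint (fun i => gl G r i) := by
  intro i _ j _ hij
  rw [Function.onFun, Finset.disjoint_left]
  intro L hi hj
  have h1 := ((hGLF G r i).2 L hi).2.2.1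
  have h2 := ((hGLF G r j).2 L hj).2.2.1
  rw [h1] at h2
  exact hij (Option.some.inj h2)

lemma sum_LL (hGLF : T_GLF) (G r A : ℕ) (g : List ℕ → ℝ) :
    ∑ L ∈ LL G r A, g L = ∑ i ∈ Finset.range A, ∑ L ∈ gl G r i, g L :=
  Finset.sum_biUnion (LL_disj hGLF G r A)

lemma mem_LL {G r A : ℕ} {L : List ℕ} : L ∈ LL G r A ↔ ∃ i < A, L ∈ gl G r i := by
  unfold LL
  simp only [Finset.mem_biUnion, Finset.mem_range]

lemma lk_nonneg (α : ℝ) {κ : ℝ} (hκ : 0 ≤ κ) (d : ℕ) : 0 ≤ lk α κ d := by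
  unfold lk; positivity

/-- expansion of the powers -/
lemma Fc_pow (hHLP : T_HLP) (α κ : ℝ) (n ℓ thr M G r A : ℕ) (w : (ℕ → ℝ) → ℝ)
    (lab : (ℕ → ℝ) → ℕ) (hκ : 0 ≤ κ) (hw : ∀ x, 0 ≤ w x) (hA : A + r * (G + 1) ≤ M)
    (p : ℝ) (hp : 0 < p) (x : ℕ → ℝ) :
    Fc α κ n ℓ thr M G r A w lab x ^ p = ∑ L ∈ LL G r A,
      lp (fun g => lk α κ (g * n)) L ^ p *
        (if ∀ k < M, (k ∈ L.toFinset ↔ thr ≤ lab (shift (k * (n * ℓ)) x)) then
          ∏ k ∈ L.toFinset, w (shift (k * (n * ℓ)) x) ^ p else 0) := by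
  have h1 : Fc α κ n ℓ thr M G r A w lab x ^ p = ∑ L ∈ LL G r A,
      if hb n ℓ thr M lab x = L then
        cw (fun i => w (shift (i * (n * ℓ)) x)) (fun g => lk α κ (g * n)) L ^ p else 0 := by
    rw [Finset.sum_ite_eq]
    unfold Fc
    split_ifs with h
    · rfl
    · exact Real.zero_rpow hp.ne'
  rw [h1]
  apply Finset.sum_congr rfl
  intro L hL
  obtain ⟨i, hi, hL⟩ := mem_LL.1 hL
  obtain ⟨a1, a2, -, a4⟩ := hHLP G r i L hL
  have h2 := a1 n ℓ thr M lab x (by omega)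
  by_cases hc : hb n ℓ thr M lab x = L
  · rw [if_pos hc, if_pos (h2.1 hc), a2, Real.mul_rpow, ← Real.finset_prod_rpow]
    · exact fun k _ => hw _
    · exact (a4 _ (fun d => lk_nonneg α hκ _)).1
    · exact Finset.prod_nonneg fun k _ => hw _
  · rw [if_neg hc, if_neg (fun h => hc (h2.2 h)), mul_zero]

/-- the moments -/
lemma Fc_moment (hGLF : T_GLF) (hHLP : T_HLP) (hLIT : T_LIT) (ν : Measure ℝ)
    [IsProbabilityMeasure ν] (α κ : ℝ) (n ℓ thr M G r A : ℕ) (w : (ℕ → ℝ) → ℝ)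
    (lab : (ℕ → ℝ) → ℕ) (hκ : 0 ≤ κ) (hw : ∀ x, 0 ≤ w x) (mw : Measurable w)
    (ml : Measurable lab) (dw : DepLt (n * ℓ) w) (dl : DepLt (n * ℓ) lab)
    (hA : A + r * (G + 1) ≤ M) (p : ℝ) (hp : 0 < p)
    (hint : Integrable (fun x => w x ^ p) (iid ν)) :
    Integrable (fun x => Fc α κ n ℓ thr M G r A w lab x ^ p) (iid ν) ∧
    ∫ x, Fc α κ n ℓ thr M G r A w lab x ^ p ∂(iid ν) = ∑ L ∈ LL G r A,
      lp (fun g => lk α κ (g * n)) L ^ p *
        ((∫ x : ℕ → ℝ, (if thr ≤ lab x then w x ^ p else 0) ∂(iid ν)) ^ (r + 1) *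
          (iid ν).real {x : ℕ → ℝ | lab x < thr} ^ (M - (r + 1))) := by
  have hpt : (fun x => Fc α κ n ℓ thr M G r A w lab x ^ p) = fun x => ∑ L ∈ LL G r A,
      lp (fun g => lk α κ (g * n)) L ^ p *
        (if ∀ k < M, (k ∈ L.toFinset ↔ thr ≤ lab (shift (k * (n * ℓ)) x)) then
          ∏ k ∈ L.toFinset, w (shift (k * (n * ℓ)) x) ^ p else 0) := by
    funext x
    exact Fc_pow hHLP α κ n ℓ thr M G r A w lab hκ hw hA p hp x
  have hone : ∀ L ∈ LL G r A,
      Integrable (fun x : ℕ → ℝ =>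
        if ∀ k < M, (k ∈ L.toFinset ↔ thr ≤ lab (shift (k * (n * ℓ)) x)) then
          ∏ k ∈ L.toFinset, w (shift (k * (n * ℓ)) x) ^ p else 0) (iid ν) ∧
      ∫ x : ℕ → ℝ, (if ∀ k < M, (k ∈ L.toFinset ↔ thr ≤ lab (shift (k * (n * ℓ)) x)) then
        ∏ k ∈ L.toFinset, w (shift (k * (n * ℓ)) x) ^ p else 0) ∂(iid ν) =
      (∫ x : ℕ → ℝ, (if thr ≤ lab x then w x ^ p else 0) ∂(iid ν)) ^ (r + 1) *
          (iid ν).real {x : ℕ → ℝ | lab x < thr} ^ (M - (r + 1)) := by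
    intro L hL
    obtain ⟨i, hi, hL⟩ := mem_LL.1 hL
    obtain ⟨-, -, -, hcard, hbd⟩ := (hGLF G r i).2 L hL
    have hsub : L.toFinset ⊆ Finset.range M := by
      intro k hk
      rw [List.mem_toFinset] at hk
      rw [Finset.mem_range]
      have := (hbd k hk).2
      omega
    have h := hLIT ν (n * ℓ) thr lab (fun x => w x ^ p) ml dl (mw.pow_const p)
      (fun x x' hx => by
        show w x ^ p = w x' ^ p
        rw [dw x x' hx]) (fun x => Real.rpow_nonneg (hw x) p) hint M L.toFinset hsub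
    rw [hcard] at h
    exact h
  constructor
  · rw [hpt]
    exact integrable_finsetSum _ fun L hL => (hone L hL).1.const_mul _
  · rw [hpt, integral_finsetSum _ fun L hL => (hone L hL).1.const_mul _]
    apply Finset.sum_congr rfl
    intro L hL
    rw [integral_const_mul, (hone L hL).2]

lemma integrable_ite' (ν : Measure ℝ) {P : (ℕ → ℝ) → Prop} [DecidablePred P]
    (hP : MeasurableSet {x | P x}) {f : (ℕ → ℝ) → ℝ} (hf : Integrable f (iid ν)) :
    Integrable (fun x => if P x then f x else 0) (iid ν) := by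
  refine (hf.indicator hP).congr (Filter.Eventually.of_forall fun x => ?_)
  by_cases h : P x
  · rw [Set.indicator_of_mem (by exact h)]; simp [h]
  · rw [Set.indicator_of_notMem (by exact h)]; simp [h]

/-- the first moment of the high boxes -/
lemma high_ge (K : PMF ℕ) (ν : Measure ℝ) [IsProbabilityMeasure ν] (ℓ : ℕ) (α β : ℝ)
    (n J : ℕ) (t : ℕ → ℝ) (C E : ℝ) (w : (ℕ → ℝ) → ℝ) (lab : (ℕ → ℝ) → ℕ)
    (hO : Ob K ν ℓ α β n J t C E w lab) (thr : ℕ) (hthr : 1 ≤ thr) :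
    n * ∑ j ∈ Finset.Icc thr J, t j ≤
      ∫ x : ℕ → ℝ, (if thr ≤ lab x then w x ^ (1 / (1 + α)) else 0) ∂(iid ν) := by
  have hmj : ∀ j : ℕ, MeasurableSet {x : ℕ → ℝ | lab x = j} := fun j =>
    hO.ml (measurableSet_singleton j)
  have hmt : MeasurableSet {x : ℕ → ℝ | thr ≤ lab x} := measurableSet_le measurable_const hO.ml
  calc n * ∑ j ∈ Finset.Icc thr J, t j = ∑ j ∈ Finset.Icc thr J, n * t j := Finset.mul_sum _ _ _
    _ ≤ ∑ j ∈ Finset.Icc thr J,
        ∫ x : ℕ → ℝ, (if lab x = j then w x ^ (1 / (1 + α)) else 0) ∂(iid ν) := by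
        apply Finset.sum_le_sum
        intro j hj
        exact hO.dens j (hthr.trans (Finset.mem_Icc.1 hj).1)
    _ = ∫ x : ℕ → ℝ, (∑ j ∈ Finset.Icc thr J,
        if lab x = j then w x ^ (1 / (1 + α)) else 0) ∂(iid ν) := by
        rw [integral_finsetSum]
        intro j _
        exact integrable_ite' ν (hmj j) hO.i1
    _ ≤ _ := by
        apply integral_mono
        · exact integrable_finsetSum _ fun j _ => integrable_ite' ν (hmj j) hO.i1
        · exact integrable_ite' ν hmt hO.i1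
        · intro x
          show (∑ j ∈ Finset.Icc thr J, if lab x = j then w x ^ (1 / (1 + α)) else 0) ≤
            if thr ≤ lab x then w x ^ (1 / (1 + α)) else 0
          have h0 : 0 ≤ w x ^ (1 / (1 + α)) := Real.rpow_nonneg (hO.nonneg x) _
          rw [Finset.sum_ite_eq]
          split_ifs with h1 h2 h2
          · exact le_rfl
          · exact absurd (Finset.mem_Icc.1 h1).1 h2
          · exact h0
          · exact le_rfl

/-- few boxes are high -/
lemma low_pow (ν : Measure ℝ) [IsProbabilityMeasure ν] (lab : (ℕ → ℝ) → ℕ)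
    (ml : Measurable lab) (thr M k : ℕ) (q : ℝ)
    (hq : (iid ν).real {x : ℕ → ℝ | thr ≤ lab x} ≤ q) (hM : M * q ≤ 1 / 2) :
    1 / 2 ≤ (iid ν).real {x : ℕ → ℝ | lab x < thr} ^ (M - k) := by
  have hmt : MeasurableSet {x : ℕ → ℝ | thr ≤ lab x} := measurableSet_le measurable_const ml
  have hc : {x : ℕ → ℝ | lab x < thr} = {x : ℕ → ℝ | thr ≤ lab x}ᶜ := by
    ext x
    simp
  have h1 : (iid ν).real {x : ℕ → ℝ | lab x < thr} =
      1 - (iid ν).real {x : ℕ → ℝ | thr ≤ lab x} := by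
    rw [hc, probReal_compl_eq_one_sub hmt]
  set a := (iid ν).real {x : ℕ → ℝ | thr ≤ lab x} with ha
  have ha0 : 0 ≤ a := measureReal_nonneg
  have ha1 : a ≤ 1 := measureReal_le_one
  rw [h1]
  have hb0 : 0 ≤ 1 - a := by linarith
  have hb1 : 1 - a ≤ 1 := by linarith
  have h2 : (1 - a) ^ M ≤ (1 - a) ^ (M - k) := pow_le_pow_of_le_one hb0 hb1 (Nat.sub_le _ _)
  have h3 : 1 + (M : ℝ) * (-a) ≤ (1 + -a) ^ M := one_add_mul_le_pow (by linarith) M
  have h4 : (M : ℝ) * a ≤ M * q := mul_le_mul_of_nonneg_left hq (Nat.cast_nonneg _)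
  have h5 : (1 + -a) ^ M = (1 - a) ^ M := by rw [← sub_eq_add_neg]
  rw [h5] at h3
  linarith

theorem pf_CHF (hGLF : T_GLF) (hHLP : T_HLP) (hCNT : T_CNT) (hLIT : T_LIT) (hCHN : T_CHN)
    (hPHI : T_PHI) (hLVL : Pool.Agent.H55.CG.T_LVL) : T_CHF := by
  intro K ν hνp ℓ α β κ n J t C E hℓ hα hβ hκ hκ1 hHK hn hE ⟨w, lab, hO⟩ ht thr M G A r hthr hG
    hA hMq ω E0 J' hω0 hω hE0 hE0pos hJ' h16
  have hα' : 0 < 1 + α := by linarith
  have hg0 : 0 < 1 / (1 + α) := by positivity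
  have hg2 : 0 < 2 / (1 + α) := by positivity
  have hn0 : (0 : ℝ) < n := by exact_mod_cast hn
  set S : ℝ := ∑ j ∈ Finset.Icc thr J, t j with hS
  have hS0 : 0 ≤ S := Finset.sum_nonneg fun j _ => ht j
  set Hs : ℝ := ∑ g ∈ Finset.Ico 2 (G + 2), 1 / ((g : ℝ) + 1) with hHs
  have hHs0 : 0 ≤ Hs := Finset.sum_nonneg fun g _ => by positivity
  obtain ⟨i1, m1⟩ := Fc_moment hGLF hHLP hLIT ν α κ n ℓ thr M G r A w lab hκ.le hO.nonneg
    hO.mw hO.ml hO.dw hO.dl hA _ hg0 hO.i1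
  obtain ⟨i2, m2⟩ := Fc_moment hGLF hHLP hLIT ν α κ n ℓ thr M G r A w lab hκ.le hO.nonneg
    hO.mw hO.ml hO.dw hO.dl hA _ hg2 hO.i2
  -- bounds of the functional
  have hF : ∀ x, 0 ≤ Fc α κ n ℓ thr M G r A w lab x ∧
      Fc α κ n ℓ thr M G r A w lab x ≤ WB K ℓ (M * n) x := by
    intro x
    have hMn : 0 ≤ WB K ℓ (M * n) x ∨ LL G r A = ∅ ∨ True := Or.inr (Or.inr trivial)
    unfold Fc
    split_ifs with h
    · obtain ⟨i, hi, hL⟩ := mem_LL.1 h
      exact hCHN K ℓ α κ hℓ hα hκ.le hHK n M G r i _ hn hL (by omega) x _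
        (fun k => ⟨hO.nonneg _, hO.le _⟩)
    · refine ⟨le_rfl, ?_⟩
      by_cases hA0 : A = 0
      · exfalso
        rw [hA0] at hE0
        simp only [Nat.cast_zero, zero_mul, zero_div] at hE0
        exact hE0pos.ne' hE0
      · have hne : (gl G r 0).Nonempty := by
          rw [← Finset.card_pos, (hGLF G r 0).1]
          exact pow_pos (by omega) r
        obtain ⟨L, hL⟩ := hne
        have := hCHN K ℓ α κ hℓ hα hκ.le hHK n M G r 0 L hn hL (by omega) x
          (fun k => w (shift (k * (n * ℓ)) x)) (fun k => ⟨hO.nonneg _, hO.le _⟩)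
        exact this.1.trans this.2
  -- measurability
  have hFm : Measurable (fun x => Fc α κ n ℓ thr M G r A w lab x ^ (1 / (1 + α))) := by
    have hpt : (fun x => Fc α κ n ℓ thr M G r A w lab x ^ (1 / (1 + α))) =
        fun x => ∑ L ∈ LL G r A, lp (fun g => lk α κ (g * n)) L ^ (1 / (1 + α)) *
        (if ∀ k < M, (k ∈ L.toFinset ↔ thr ≤ lab (shift (k * (n * ℓ)) x)) then
          ∏ k ∈ L.toFinset, w (shift (k * (n * ℓ)) x) ^ (1 / (1 + α)) else 0) := by
      funext x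
      exact Fc_pow hHLP α κ n ℓ thr M G r A w lab hκ.le hO.nonneg hA _ hg0 x
    rw [hpt]
    refine Finset.measurable_sum _ fun L _ => ?_
    refine Measurable.const_mul (Measurable.ite ?_ ?_ measurable_const) _
    · have hset : {x : ℕ → ℝ | ∀ k < M, (k ∈ L.toFinset ↔
          thr ≤ lab (shift (k * (n * ℓ)) x))} =
          ⋂ k ∈ Finset.range M, {x : ℕ → ℝ | (k ∈ L.toFinset ↔
            thr ≤ lab (shift (k * (n * ℓ)) x))} := by
        ext x
        simp
      rw [hset]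
      refine Finset.measurableSet_biInter _ fun k _ => ?_
      have hmk : MeasurableSet {x : ℕ → ℝ | thr ≤ lab (shift (k * (n * ℓ)) x)} :=
        measurableSet_le measurable_const (hO.ml.comp (measurable_shift _))
      by_cases hk : k ∈ L.toFinset
      · have : {x : ℕ → ℝ | (k ∈ L.toFinset ↔ thr ≤ lab (shift (k * (n * ℓ)) x))} =
            {x : ℕ → ℝ | thr ≤ lab (shift (k * (n * ℓ)) x)} := by
          ext x; simp only [Set.mem_ofPred_eq]; tauto
        rw [this]; exact hmk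
      · have : {x : ℕ → ℝ | (k ∈ L.toFinset ↔ thr ≤ lab (shift (k * (n * ℓ)) x))} =
            {x : ℕ → ℝ | thr ≤ lab (shift (k * (n * ℓ)) x)}ᶜ := by
          ext x; simp only [Set.mem_ofPred_eq, Set.mem_compl_iff]; tauto
        rw [this]; exact hmk.compl
    · exact Finset.measurable_prod _ fun k _ =>
        (hO.mw.comp (measurable_shift _)).pow_const _
  -- the first moment
  have hI := high_ge K ν ℓ α β n J t C E w lab hO thr hthr
  rw [← hS] at hI
  have hρ := low_pow ν lab hO.ml thr M (r + 1) _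
    (hPHI K ν ℓ α β n J t C E w lab hα hβ hO thr hthr) hMq
  set I1 : ℝ := ∫ x : ℕ → ℝ, (if thr ≤ lab x then w x ^ (1 / (1 + α)) else 0) ∂(iid ν) with hI1
  set ρ : ℝ := (iid ν).real {x : ℕ → ℝ | lab x < thr} with hρd
  have hsum : ∑ L ∈ LL G r A, lp (fun g => lk α κ (g * n)) L ^ (1 / (1 + α)) *
      (I1 ^ (r + 1) * ρ ^ (M - (r + 1))) =
      A * (κ ^ (1 / (1 + α)) / n * Hs) ^ r * (I1 ^ (r + 1) * ρ ^ (M - (r + 1))) := by
    rw [← Finset.sum_mul, sum_LL hGLF]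
    congr 1
    rw [Finset.sum_congr rfl fun i _ => hCNT α κ n G r i hα hκ hn, Finset.sum_const,
      Finset.card_range, nsmul_eq_mul]
  have hlow : E0 ≤ ∫ x, Fc α κ n ℓ thr M G r A w lab x ^ (1 / (1 + α)) ∂(iid ν) := by
    rw [m1, hsum, hE0]
    have hnS : 0 ≤ (n : ℝ) * S := by positivity
    have e1 : ((n : ℝ) * S) ^ (r + 1) ≤ I1 ^ (r + 1) := pow_le_pow_left₀ hnS hI _
    have e2 : ((n : ℝ) * S) ^ (r + 1) * (1 / 2) ≤ I1 ^ (r + 1) * ρ ^ (M - (r + 1)) :=
      mul_le_mul e1 hρ (by norm_num) ((pow_nonneg hnS _).trans e1)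
    have hκ0 : 0 ≤ κ ^ (1 / (1 + α)) := by positivity
    have e3 : ω / n ≤ κ ^ (1 / (1 + α)) / n * Hs := by
      rw [div_mul_eq_mul_div]
      exact div_le_div_of_nonneg_right hω hn0.le
    have e4 : (ω / n) ^ r ≤ (κ ^ (1 / (1 + α)) / n * Hs) ^ r :=
      pow_le_pow_left₀ (by positivity) e3 _
    have e5 : (A : ℝ) * (ω / n) ^ r * (((n : ℝ) * S) ^ (r + 1) * (1 / 2)) ≤
        A * (κ ^ (1 / (1 + α)) / n * Hs) ^ r * (I1 ^ (r + 1) * ρ ^ (M - (r + 1))) :=
      mul_le_mul (mul_le_mul_of_nonneg_left e4 (Nat.cast_nonneg _)) e2 (by positivity)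
        (by positivity)
    refine le_trans (le_of_eq ?_) e5
    have e6 : (ω / n) ^ r * ((n : ℝ) * S) ^ (r + 1) = n * S * (ω * S) ^ r := by
      rw [pow_succ, ← mul_assoc, ← mul_pow]
      have : ω / n * ((n : ℝ) * S) = ω * S := by field_simp
      rw [this]; ring
    calc (A : ℝ) * n * S * (ω * S) ^ r / 2 = A * (n * S * (ω * S) ^ r) * (1 / 2) := by ring
      _ = A * ((ω / n) ^ r * ((n : ℝ) * S) ^ (r + 1)) * (1 / 2) := by rw [e6]
      _ = _ := by ring
  -- the second moment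
  have hsq : ∀ x, (Fc α κ n ℓ thr M G r A w lab x ^ (1 / (1 + α))) ^ 2 =
      Fc α κ n ℓ thr M G r A w lab x ^ (2 / (1 + α)) := by
    intro x
    rw [← Real.rpow_natCast, ← Real.rpow_mul (hF x).1]
    congr 1
    push_cast
    ring
  have hup : ∫ x, (Fc α κ n ℓ thr M G r A w lab x ^ (1 / (1 + α))) ^ 2 ∂(iid ν) ≤
      A * (G : ℝ) ^ r * E ^ (r + 1) := by
    simp_rw [hsq]
    rw [m2]
    set I2 : ℝ := ∫ x : ℕ → ℝ, (if thr ≤ lab x then w x ^ (2 / (1 + α)) else 0) ∂(iid ν)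
      with hI2
    have hI20 : 0 ≤ I2 := integral_nonneg fun x => by
      show 0 ≤ if thr ≤ lab x then w x ^ (2 / (1 + α)) else 0
      split_ifs
      · exact Real.rpow_nonneg (hO.nonneg x) _
      · exact le_rfl
    have hI2E : I2 ≤ E := by
      refine le_trans ?_ hO.u2
      apply integral_mono
      · exact integrable_ite' ν (measurableSet_le measurable_const hO.ml) hO.i2
      · exact hO.i2
      · intro x
        show (if thr ≤ lab x then w x ^ (2 / (1 + α)) else 0) ≤ w x ^ (2 / (1 + α))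
        split_ifs
        · exact le_rfl
        · exact Real.rpow_nonneg (hO.nonneg x) _
    have hρ0 : 0 ≤ ρ := measureReal_nonneg
    have hρ1 : ρ ≤ 1 := measureReal_le_one
    have hterm : ∀ L ∈ LL G r A, lp (fun g => lk α κ (g * n)) L ^ (2 / (1 + α)) *
        (I2 ^ (r + 1) * ρ ^ (M - (r + 1))) ≤ E ^ (r + 1) := by
      intro L hL
      obtain ⟨i, hi, hL⟩ := mem_LL.1 hL
      obtain ⟨-, -, -, a4⟩ := hHLP G r i L hL
      obtain ⟨b1, b2⟩ := a4 (fun g => lk α κ (g * n)) (fun d => lk_nonneg α hκ.le _)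
      have b3 : lp (fun g => lk α κ (g * n)) L ≤ 1 := by
        apply b2
        intro d
        show lk α κ (d * n) ≤ 1
        unfold lk
        rcases Nat.eq_zero_or_pos (d * n) with h0 | h0
        · rw [h0, Nat.cast_zero, Real.zero_rpow (by linarith), mul_zero]
          norm_num
        · have h1 : (1 : ℝ) ≤ ((d * n : ℕ) : ℝ) := by exact_mod_cast h0
          have h2 := Real.rpow_le_one_of_one_le_of_nonpos h1 (by linarith : -(1 + α) ≤ 0)
          exact mul_le_one₀ hκ1 (by positivity) h2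
      have c1 : lp (fun g => lk α κ (g * n)) L ^ (2 / (1 + α)) ≤ 1 :=
        Real.rpow_le_one b1 b3 hg2.le
      have c2 : I2 ^ (r + 1) ≤ E ^ (r + 1) := pow_le_pow_left₀ hI20 hI2E _
      have c3 : ρ ^ (M - (r + 1)) ≤ 1 := pow_le_one₀ hρ0 hρ1
      have c4 : I2 ^ (r + 1) * ρ ^ (M - (r + 1)) ≤ E ^ (r + 1) * 1 :=
        mul_le_mul c2 c3 (pow_nonneg hρ0 _) (by positivity)
      have c5 : lp (fun g => lk α κ (g * n)) L ^ (2 / (1 + α)) *
          (I2 ^ (r + 1) * ρ ^ (M - (r + 1))) ≤ 1 * (E ^ (r + 1) * 1) :=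
        mul_le_mul c1 c4 (by positivity) (by norm_num)
      rwa [one_mul, mul_one] at c5
    refine (Finset.sum_le_sum hterm).trans ?_
    rw [sum_LL hGLF, Finset.sum_congr rfl fun i _ => by
      rw [Finset.sum_const, (hGLF G r i).1, nsmul_eq_mul], Finset.sum_const,
      Finset.card_range, nsmul_eq_mul]
    push_cast
    exact le_of_eq (by ring)
  obtain ⟨s, hs0, hs⟩ := hLVL (iid ν) _ hFm (fun x => Real.rpow_nonneg (hF x).1 _) i1
    (by simp_rw [hsq]; exact i2) E0 (A * (G : ℝ) ^ r * E ^ (r + 1)) J' hE0pos hlow hup hJ' h16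
  refine ⟨s, hs0, hs.trans (mul_le_mul_of_nonneg_left ?_ hs0.le)⟩
  refine measureReal_mono ?_ (measure_ne_top _ _)
  intro x hx
  have hx' : s ≤ Fc α κ n ℓ thr M G r A w lab x ^ (1 / (1 + α)) := hx
  exact hx'.trans (Real.rpow_le_rpow (hF x).1 (hF x).2 hg0.le)

end Pool.Agent.H62.CEL
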