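import Pool.Agent.H98.CE.Targets
import Pool.Agent.H55.CG.Targets

/-!
# END: the rare stretch lemma
-/

set_option autoImplicit false

open MeasureTheory ProbabilityTheory Filter Topology
open Pool.Agent.H95 Pool.Agent.H95.Cop Pool.Agent.H98.CE
open Pool.Agent.H55.CG (pz VV Mo XB)

namespace Pool.Agent.H62.CEL

/-- sums over consecutive cells -/
lemma sum_cells (f : ℕ → ℝ) (ℓ a b : ℕ) (hab : a ≤ b) :
    ∑ u ∈ Finset.Ico a b, ∑ y ∈ Finset.Ico (u * ℓ) ((u + 1) * ℓ), f y =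
      ∑ y ∈ Finset.Ico (a * ℓ) (b * ℓ), f y := by
  induction b, hab using Nat.le_induction with
  | base => simp
  | succ b hb ih =>
    rw [Finset.sum_Ico_succ_top hb, ih, Finset.sum_Ico_consecutive]
    · exact Nat.mul_le_mul_right ℓ hb
    · exact Nat.mul_le_mul_right ℓ (Nat.le_succ b)

/-- the block functional of helper55 in terms of cells -/
lemma XB_eq (K : PMF ℕ) (ℓ n : ℕ) (hV : 0 < VV K ℓ) (x : ℕ → ℝ) :
    XB K (n * ℓ) 1 x = VV K ℓ * PX K ℓ x n (2 * n) (3 * n) (4 * n) := by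
  unfold XB PX pc
  have h1 : ∀ u v : ℕ, VV K ℓ * ((∑ y ∈ Finset.Ico (u * ℓ) ((u + 1) * ℓ),
      ∑ z ∈ Finset.Ico (v * ℓ) ((v + 1) * ℓ), if y ≤ z then pz K x (z - y) y else 0) / VV K ℓ) =
      ∑ y ∈ Finset.Ico (u * ℓ) ((u + 1) * ℓ),
        ∑ z ∈ Finset.Ico (v * ℓ) ((v + 1) * ℓ), if y ≤ z then pz K x (z - y) y else 0 :=
    fun u v => mul_div_cancel₀ _ hV.ne'
  simp only [Finset.mul_sum, h1]
  have h2 : ∀ u ∈ Finset.Ico n (2 * n), (∑ v ∈ Finset.Ico (3 * n) (4 * n),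
      ∑ y ∈ Finset.Ico (u * ℓ) ((u + 1) * ℓ), ∑ z ∈ Finset.Ico (v * ℓ) ((v + 1) * ℓ),
        if y ≤ z then pz K x (z - y) y else 0) =
      ∑ y ∈ Finset.Ico (u * ℓ) ((u + 1) * ℓ), ∑ z ∈ Finset.Ico (3 * n * ℓ) (4 * n * ℓ),
        if y ≤ z then pz K x (z - y) y else 0 := by
    intro u _
    rw [Finset.sum_comm]
    apply Finset.sum_congr rfl
    intro y _
    exact sum_cells (fun z => if y ≤ z then pz K x (z - y) y else 0) ℓ (3 * n) (4 * n) (by omega)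
  rw [Finset.sum_congr rfl h2, sum_cells (fun y => ∑ z ∈ Finset.Ico (3 * n * ℓ) (4 * n * ℓ),
    if y ≤ z then pz K x (z - y) y else 0) ℓ n (2 * n) (by omega)]
  have e1 : 2 * (n * ℓ) = 2 * n * ℓ := by ring
  have e2 : (2 * 1 + 1) * (n * ℓ) = 3 * n * ℓ := by ring
  have e3 : (2 * 1 + 2) * (n * ℓ) = 4 * n * ℓ := by ring
  rw [e1, e2, e3]
  apply Finset.sum_congr rfl
  intro y hy
  apply Finset.sum_congr rfl
  intro z hz
  rw [Finset.mem_Ico] at hy hz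
  have h3 : 2 * n * ℓ ≤ 3 * n * ℓ := by
    have : 3 * n * ℓ = 2 * n * ℓ + n * ℓ := by ring
    omega
  rw [if_pos (by omega)]

/-- the pointwise lower bound -/
lemma XB_ge (hPCB : T_PCB) (hPXS : T_PXS) (hPXC : T_PXC) (K : PMF ℕ) (ℓ n : ℕ) (α κ s : ℝ)
    (hℓ : 1 ≤ ℓ) (hα : 0 < α) (hκ : 0 < κ) (hHK : HK K ℓ α κ) (hn : 1 ≤ n) (hs : 0 < s)
    (x : ℕ → ℝ) (h1 : s ≤ WB K ℓ n (shift (n * ℓ) x) ^ (1 / (1 + α)))
    (h3 : s ≤ WB K ℓ n (shift (3 * n * ℓ) x) ^ (1 / (1 + α))) :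
    VV K ℓ * (s ^ (1 + α) * (κ * ((3 * n : ℕ) : ℝ) ^ (-(1 + α))) * s ^ (1 + α)) ≤
      XB K (n * ℓ) 1 x := by
  have hα' : 0 < 1 + α := by linarith
  have hV := (hPCB K ℓ hℓ).1
  have hW0 : ∀ y : ℕ → ℝ, 0 ≤ WB K ℓ n y := fun y => ((hPXS K ℓ hℓ 0 n 0 n).1 y).1
  have hpow : ∀ y : ℕ → ℝ, s ≤ WB K ℓ n y ^ (1 / (1 + α)) → s ^ (1 + α) ≤ WB K ℓ n y := by
    intro y hy
    have := Real.rpow_le_rpow hs.le hy hα'.le
    rwa [← Real.rpow_mul (hW0 y), one_div_mul_cancel hα'.ne', Real.rpow_one] at this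
  have a1 := hpow _ h1
  have a3 := hpow _ h3
  have hsh := ((hPXS K ℓ hℓ 0 n 0 n).1 x).2.2.2
  rw [hsh n n] at a1
  rw [hsh n (3 * n)] at a3
  have hc := hPXC K ℓ α κ hℓ hα hκ.le hHK x n (n + n) n (n + n) (3 * n) (3 * n + n) (3 * n)
    (3 * n + n) (3 * n) le_rfl (by omega) (by omega) (by omega)
  rw [XB_eq K ℓ n hV x]
  apply mul_le_mul_of_nonneg_left _ hV.le
  have e1 : 2 * n = n + n := by ring
  have e2 : 4 * n = 3 * n + n := by ring
  rw [e1, e2]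
  refine le_trans ?_ hc
  have hs0 : 0 ≤ s ^ (1 + α) := Real.rpow_nonneg hs.le _
  have hlk : 0 ≤ lk α κ (3 * n) := by unfold lk; positivity
  have h5 : κ * ((3 * n : ℕ) : ℝ) ^ (-(1 + α)) = lk α κ (3 * n) := rfl
  rw [h5]
  apply mul_le_mul _ a3 hs0 (mul_nonneg (le_trans hs0 a1) hlk)
  exact mul_le_mul_of_nonneg_right a1 hlk

/-- the numbers -/
lemma end_cond (α κ c s p1 p V : ℝ) (ℓ n : ℕ) (hα : 0 < α) (hκ : 0 < κ) (hκ1 : κ ≤ 1)
    (hc : 0 < c) (hs : 0 < s) (hp1 : 0 < p1) (hp : p1 ^ 2 ≤ p) (hℓ : 1 ≤ ℓ) (hn : 1 ≤ n)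
    (hV : κ ≤ V * (c / 2) * (ℓ : ℝ) ^ (-(1 + α))) (hsp : 4 * n / κ < s * p1) (hV0 : 0 < V) :
    0 < Real.log (V * (s ^ (1 + α) * (κ * ((3 * n : ℕ) : ℝ) ^ (-(1 + α))) * s ^ (1 + α))) +
      Real.log (c / 2) - (1 + α) * Real.log (((2 * 1 + 2) * (n * ℓ) : ℕ) : ℝ) -
      (1 + α) * Real.log (1 / p) := by
  have hα' : 0 < 1 + α := by linarith
  have hℓ0 : (0 : ℝ) < ℓ := by exact_mod_cast hℓ
  have hn0 : (0 : ℝ) < n := by exact_mod_cast hn
  have hp0 : 0 < p := lt_of_lt_of_le (by positivity) hp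
  have h3n : (0 : ℝ) < ((3 * n : ℕ) : ℝ) := by push_cast; positivity
  have hs0 : 0 < s ^ (1 + α) := Real.rpow_pos_of_pos hs _
  have l0 : Real.log (s ^ (1 + α)) = (1 + α) * Real.log s := Real.log_rpow hs _
  have l1 : Real.log (((3 * n : ℕ) : ℝ) ^ (-(1 + α))) = -(1 + α) * (Real.log 3 + Real.log n) := by
    rw [Real.log_rpow h3n]
    push_cast
    rw [Real.log_mul (by norm_num) hn0.ne']
  have h3p : 0 < ((3 * n : ℕ) : ℝ) ^ (-(1 + α)) := Real.rpow_pos_of_pos h3n _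
  have l2 : Real.log (V * (s ^ (1 + α) * (κ * ((3 * n : ℕ) : ℝ) ^ (-(1 + α))) * s ^ (1 + α))) =
      Real.log V + ((1 + α) * Real.log s + (Real.log κ - (1 + α) * (Real.log 3 + Real.log n)) +
        (1 + α) * Real.log s) := by
    rw [Real.log_mul hV0.ne' (by positivity), Real.log_mul (by positivity) hs0.ne',
      Real.log_mul hs0.ne' (by positivity), Real.log_mul hκ.ne' h3p.ne', l0, l1]
    ring
  have l3 : Real.log κ ≤ Real.log V + Real.log (c / 2) - (1 + α) * Real.log ℓ := by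
    have h := Real.log_le_log hκ hV
    rw [Real.log_mul (by positivity) (Real.rpow_pos_of_pos hℓ0 _).ne',
      Real.log_mul hV0.ne' (by positivity), Real.log_rpow hℓ0] at h
    linarith
  have l4 : Real.log (((2 * 1 + 2) * (n * ℓ) : ℕ) : ℝ) =
      Real.log 4 + Real.log n + Real.log ℓ := by
    rw [← Real.log_mul (by norm_num) hn0.ne', ← Real.log_mul (by positivity) hℓ0.ne']
    congr 1
    push_cast
    ring
  have l5 : Real.log (1 / p) ≤ -(2 * Real.log p1) := by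
    rw [one_div, Real.log_inv]
    have h := Real.log_le_log (by positivity) hp
    rw [Real.log_pow] at h
    push_cast at h
    linarith
  have l6 : Real.log 4 + Real.log n - Real.log κ < Real.log s + Real.log p1 := by
    rw [← Real.log_mul (by norm_num) hn0.ne', ← Real.log_div (by positivity) hκ.ne',
      ← Real.log_mul hs.ne' hp1.ne']
    exact Real.log_lt_log (by positivity) hsp
  have l7 : Real.log κ ≤ 0 := Real.log_nonpos hκ.le hκ1
  have l8 : Real.log 3 < Real.log 4 := Real.log_lt_log (by norm_num) (by norm_num)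
  have l9 : (1 + α) * (Real.log 4 + Real.log n - Real.log κ) <
      (1 + α) * (Real.log s + Real.log p1) := mul_lt_mul_of_pos_left l6 hα'
  have l10 : (1 + α) * Real.log (1 / p) ≤ (1 + α) * (-(2 * Real.log p1)) :=
    mul_le_mul_of_nonneg_left l5 hα'.le
  have l11 : (1 + α) * Real.log 3 < (1 + α) * Real.log 4 := mul_lt_mul_of_pos_left l8 hα'
  have l12 : α * Real.log κ ≤ 0 := mul_nonpos_of_nonneg_of_nonpos hα.le l7
  rw [l2, l4]
  have e1 : (1 + α) * (Real.log 4 + Real.log n - Real.log κ) =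
      (1 + α) * Real.log 4 + (1 + α) * Real.log n - Real.log κ - α * Real.log κ := by ring
  have e2 : (1 + α) * (Real.log s + Real.log p1) =
      (1 + α) * Real.log s + (1 + α) * Real.log p1 := by ring
  have e3 : (1 + α) * (-(2 * Real.log p1)) = -(2 * ((1 + α) * Real.log p1)) := by ring
  have e4 : (1 + α) * (Real.log 3 + Real.log n) =
      (1 + α) * Real.log 3 + (1 + α) * Real.log n := by ring
  have e5 : (1 + α) * (Real.log 4 + Real.log n + Real.log ℓ) =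
      (1 + α) * Real.log 4 + (1 + α) * Real.log n + (1 + α) * Real.log ℓ := by ring
  rw [e1, e2] at l9
  rw [e3] at l10
  rw [e4, e5]
  linarith

theorem pf_END (hRSL : Pool.Agent.H55.CG.T_RSL) (hMAP : Pool.Agent.H55.CG.T_MAP)
    (hPCB : T_PCB) (hPXS : T_PXS) (hPXC : T_PXC) : T_END := by
  intro α hα K hK0 cK hcK hK μ hμ hexp c n0 hc hn0 ℓ n κ lam h s hℓ hn0ℓ hκ hκ1 hHK hκV hn hs hsp
  have hα' : 0 < 1 + α := by linarith
  have hfm : Measurable (fun z : ℝ => -2 * lam * (z + h)) := by fun_prop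
  set ν : Measure ℝ := μ.map (fun z => -2 * lam * (z + h)) with hν
  have hνp : IsProbabilityMeasure ν := Measure.isProbabilityMeasure_map hfm.aemeasurable
  have hV := (hPCB K ℓ hℓ).1
  have hWm : Measurable (fun x : ℕ → ℝ => WB K ℓ n x) := (hPXS K ℓ hℓ 0 n 0 n).2.1
  have hWd : DepLt (n * ℓ) (fun x : ℕ → ℝ => WB K ℓ n x) := (hPXS K ℓ hℓ 0 n 0 n).2.2
  set B : Set (ℕ → ℝ) := {x : ℕ → ℝ | s ≤ WB K ℓ n x ^ (1 / (1 + α))} with hB
  have hBm : MeasurableSet B := measurableSet_le measurable_const (hWm.pow_const _)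
  have hBd : DepLt (n * ℓ) (fun x => x ∈ B) := by
    intro x x' hx
    have := hWd x x' hx
    simp only at this
    show (s ≤ WB K ℓ n x ^ (1 / (1 + α))) = (s ≤ WB K ℓ n x' ^ (1 / (1 + α)))
    rw [this]
  set p1 : ℝ := (iid ν).real B with hp1
  have hn0' : (0 : ℝ) < n := by exact_mod_cast hn
  have hp10 : 0 < p1 := by
    by_contra hcon
    push Not at hcon
    have h1 : s * p1 ≤ 0 := mul_nonpos_of_nonneg_of_nonpos hs.le hcon
    have h2 : 0 < 4 * (n : ℝ) / κ := by positivity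
    linarith
  set v : ℝ := VV K ℓ * (s ^ (1 + α) * (κ * ((3 * n : ℕ) : ℝ) ^ (-(1 + α))) * s ^ (1 + α))
    with hv
  have hs0 : 0 < s ^ (1 + α) := Real.rpow_pos_of_pos hs _
  have h3n : (0 : ℝ) < ((3 * n : ℕ) : ℝ) := by push_cast; positivity
  have h3p : 0 < ((3 * n : ℕ) : ℝ) ^ (-(1 + α)) := Real.rpow_pos_of_pos h3n _
  have hv0 : 0 < v := by positivity
  have hexpg : Real.exp (Real.log v) = v := Real.exp_log hv0
  have hXm : Measurable (fun x : ℕ → ℝ => XB K (n * ℓ) 1 x) := by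
    have : (fun x : ℕ → ℝ => XB K (n * ℓ) 1 x) =
        fun x => VV K ℓ * PX K ℓ x n (2 * n) (3 * n) (4 * n) := by
      funext x; exact XB_eq K ℓ n hV x
    rw [this]
    exact ((hPXS K ℓ hℓ n (2 * n) (3 * n) (4 * n)).2.1).const_mul _
  set p : ℝ := (iid μ).real {ω | Real.exp (Real.log v) ≤ XB K (n * ℓ) 1 (ch lam h ω)} with hp
  have hpp : (iid ν).real {x | v ≤ XB K (n * ℓ) 1 x} = p := by
    have hmap := hMAP μ (fun z : ℝ => -2 * lam * (z + h)) hfm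
    rw [hν, ← hmap, map_measureReal_apply]
    · rw [hp, hexpg]
      rfl
    · exact measurable_pi_lambda _ fun i => hfm.comp (measurable_pi_apply i)
    · exact measurableSet_le measurable_const hXm
  have hlow : p1 ^ 2 ≤ p := by
    have h1 : (iid ν).real (B ∩ shift (2 * (n * ℓ)) ⁻¹' B) = p1 * p1 := by
      rw [real_inter_shift ν (hBd.mono (by omega)) hBm hBm]
    have hm2 : MeasurableSet (B ∩ shift (2 * (n * ℓ)) ⁻¹' B) :=
      hBm.inter (measurable_shift _ hBm)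
    have h2 : (iid ν).real (shift (n * ℓ) ⁻¹' (B ∩ shift (2 * (n * ℓ)) ⁻¹' B)) = p1 * p1 := by
      rw [real_shift_preimage ν (n * ℓ) hm2, h1]
    rw [← hpp, sq, ← h2]
    refine measureReal_mono ?_ (measure_ne_top _ _)
    intro x hx
    rw [Set.mem_preimage, Set.mem_inter_iff, Set.mem_preimage, shift_shift] at hx
    have e : 2 * (n * ℓ) + n * ℓ = 3 * n * ℓ := by ring
    rw [e] at hx
    exact XB_ge hPCB hPXS hPXC K ℓ n α κ s hℓ hα hκ hHK hn hs x hx.1 hx.2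
  have hp0 : 0 < p := lt_of_lt_of_le (by positivity) hlow
  have hnℓ : 1 ≤ n * ℓ := Nat.one_le_iff_ne_zero.mpr (by positivity)
  have hn0n : n0 ≤ n * ℓ := hn0ℓ.trans (Nat.le_mul_of_pos_left ℓ hn)
  exact hRSL α hα K hK0 cK hcK hK μ hexp c n0 hc hn0 (n * ℓ) 1 hnℓ hn0n le_rfl lam h
    (Real.log v) p rfl hp0
    (end_cond α κ c s p1 p (VV K ℓ) ℓ n hα hκ hκ1 hc hs hp10 hlow hℓ hn hκV hsp hV)

end Pool.Agent.H62.CEL
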